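import Mathlib
import Pool.Agent.H32CE.All

/-!
# Commutator equations in free nilpotent groups have solutions of polynomial length

Mathlib's `(⊤ : Subgroup G).lowerCentralSeries c` is the term `γ_{c+1}(G)` of the lower central
series, so that `N r c` is the free nilpotent group `N_{r,c} = F_r / γ_{c+1}(F_r)`. An element of it
is given by a word in the generators and their inverses, that is by a list of pairs (index of the
generator, sign).

We show that a solvable equation `[x, y] = w` has a solution in which `x` and `y` are given by words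
of length at most a polynomial in the length of `w`, so that there is an algorithm that decides
solvability and, moreover, one that returns such a solution.
-/

set_option autoImplicit false

namespace Pool.Agent.Results.MP_76db9d_al.PolynomialSolutions

/-- The free nilpotent group `N_{r,c} = F_r / γ_{c+1}(F_r)`. -/
abbrev N (r c : ℕ) : Type :=
  FreeGroup (Fin r) ⧸ (⊤ : Subgroup (FreeGroup (Fin r))).lowerCentralSeries c

/-- The element of `N_{r,c}` given by a word in the generators and their inverses. -/
def val {r : ℕ} (c : ℕ) (w : List (Fin r × Bool)) : N r c :=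
  (QuotientGroup.mk (FreeGroup.mk w) : N r c)

/-- The equation `[x, y] = w` has a solution in `N_{r,c}`. -/
def Solvable {r : ℕ} (c : ℕ) (w : List (Fin r × Bool)) : Prop :=
  ∃ x y : N r c, x⁻¹ * y⁻¹ * x * y = val c w

/-- The words `u` and `v` give a solution of the equation `[x, y] = w` in `N_{r,c}`. -/
def IsSolution {r : ℕ} (c : ℕ) (w u v : List (Fin r × Bool)) : Prop :=
  (val c u)⁻¹ * (val c v)⁻¹ * val c u * val c v = val c w

theorem sol_iff (r c : ℕ) (w u v : List (Fin r × Bool)) :
    Pool.Agent.H32CE.Sol c (FreeGroup.mk w) (FreeGroup.mk u) (FreeGroup.mk v) ↔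
      IsSolution c w u v := by
  unfold Pool.Agent.H32CE.Sol IsSolution
  rw [Pool.Agent.H32CE.x_MAG r c]
  have h1 : (val c u)⁻¹ * (val c v)⁻¹ * val c u * val c v =
      (QuotientGroup.mk (Pool.Agent.H32CE.cm (FreeGroup.mk u) (FreeGroup.mk v)) : N r c) := rfl
  rw [h1]
  constructor
  · intro h
    exact (QuotientGroup.eq.2 h).symm
  · intro h
    exact QuotientGroup.eq.1 h.symm

theorem solvable_of {r c : ℕ} {w u v : List (Fin r × Bool)} (h : IsSolution c w u v) :
    Solvable c w := ⟨_, _, h⟩

theorem exists_of_solvable {r c : ℕ} {w : List (Fin r × Bool)} (h : Solvable c w) :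
    ∃ u v, IsSolution c w u v := by
  obtain ⟨x, y, h⟩ := h
  obtain ⟨a, rfl⟩ := QuotientGroup.mk_surjective x
  obtain ⟨b, rfl⟩ := QuotientGroup.mk_surjective y
  refine ⟨a.toWord, b.toWord, ?_⟩
  unfold IsSolution val
  rw [FreeGroup.mk_toWord, FreeGroup.mk_toWord]
  exact h

theorem bound (r c : ℕ) : ∃ C E : ℕ, ∀ w : List (Fin r × Bool), Solvable c w →
    ∃ u v, IsSolution c w u v ∧ u.length ≤ C * (w.length + 1) ^ E ∧
      v.length ≤ C * (w.length + 1) ^ E := by
  obtain ⟨C, E, hCE⟩ := Pool.Agent.H32CE.x_BD r c
  refine ⟨C, E, fun w hw => ?_⟩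
  obtain ⟨u, v, huv⟩ := exists_of_solvable hw
  obtain ⟨x, y, hxy, hx, hy⟩ := hCE (FreeGroup.mk w) ⟨_, _, (sol_iff r c w u v).2 huv⟩
  have hlen : Pool.Agent.H32CE.len (FreeGroup.mk w) ≤ w.length := FreeGroup.norm_mk_le
  have hle : C * (Pool.Agent.H32CE.len (FreeGroup.mk w) + 1) ^ E ≤ C * (w.length + 1) ^ E :=
    Nat.mul_le_mul_left _ (Nat.pow_le_pow_left (by omega) _)
  refine ⟨x.toWord, y.toWord, ?_, hx.trans hle, hy.trans hle⟩
  rw [← sol_iff, FreeGroup.mk_toWord, FreeGroup.mk_toWord]
  exact hxy

theorem search (r c : ℕ) (b : ℕ → ℕ) (hb : Primrec b)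
    (h : ∀ w : List (Fin r × Bool), Solvable c w →
      ∃ u v, IsSolution c w u v ∧ u.length ≤ b w.length ∧ v.length ≤ b w.length)
    (hS : ComputablePred fun w : List (Fin r × Bool) => Solvable c w) :
    ∃ f : List (Fin r × Bool) → Option (List (Fin r × Bool) × List (Fin r × Bool)),
      Computable f ∧ (∀ w, f w = none ↔ ¬ Solvable c w) ∧
        ∀ w u v, f w = some (u, v) → IsSolution c w u v ∧ u.length ≤ b w.length ∧
          v.length ≤ b w.length := by
  classical
  have hQ := Pool.Agent.H32CE.TDEC.comp_pred _ (Pool.Agent.H32CE.x_WP r c) _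
    (Pool.Agent.H32CE.TDEC.wrd_prim r).to_comp
  have hQ' : ∀ (w : List (Fin r × Bool)) (n : ℕ),
      Pool.Agent.H32CE.D (c + 1) (FreeGroup.mk (Pool.Agent.H32CE.TDEC.wrd w
        (Pool.Agent.H32CE.TDEC.dec r n).1 (Pool.Agent.H32CE.TDEC.dec r n).2)) ↔
      IsSolution c w (Pool.Agent.H32CE.TDEC.dec r n).1 (Pool.Agent.H32CE.TDEC.dec r n).2 := by
    intro w n
    rw [Pool.Agent.H32CE.TDEC.mk_wrd]
    exact sol_iff r c w _ _
  -- the test of a candidate
  let Q : List (Fin r × Bool) → ℕ → Prop := fun w n =>
    IsSolution c w (Pool.Agent.H32CE.TDEC.dec r n).1 (Pool.Agent.H32CE.TDEC.dec r n).2 ∧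
      ((Pool.Agent.H32CE.TDEC.dec r n).1.length ≤ b w.length ∧
        (Pool.Agent.H32CE.TDEC.dec r n).2.length ≤ b w.length)
  have hd : Primrec (Pool.Agent.H32CE.TDEC.dec r) := Pool.Agent.H32CE.TDEC.dec_prim r
  have hsolc : Computable fun p : List (Fin r × Bool) × ℕ =>
      decide (IsSolution c p.1 (Pool.Agent.H32CE.TDEC.dec r p.2).1
        (Pool.Agent.H32CE.TDEC.dec r p.2).2) :=
    hQ.decide.of_eq fun p => by
      exact decide_eq_decide.2 (hQ' p.1 p.2)
  have hl1 : Computable fun p : List (Fin r × Bool) × ℕ =>
      decide ((Pool.Agent.H32CE.TDEC.dec r p.2).1.length ≤ b p.1.length) :=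
    (Primrec.nat_le.comp (Primrec.list_length.comp (Primrec.fst.comp (hd.comp Primrec.snd)))
      (hb.comp (Primrec.list_length.comp Primrec.fst))).decide.to_comp
  have hl2 : Computable fun p : List (Fin r × Bool) × ℕ =>
      decide ((Pool.Agent.H32CE.TDEC.dec r p.2).2.length ≤ b p.1.length) :=
    (Primrec.nat_le.comp (Primrec.list_length.comp (Primrec.snd.comp (hd.comp Primrec.snd)))
      (hb.comp (Primrec.list_length.comp Primrec.fst))).decide.to_comp
  have hQc : Computable fun p : List (Fin r × Bool) × ℕ =>
      (! decide (Solvable c p.1) || decide (Q p.1 p.2)) := by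
    have h1 : Computable fun p : List (Fin r × Bool) × ℕ => ! decide (Solvable c p.1) :=
      Primrec.not.to_comp.comp (hS.decide.comp Computable.fst)
    have h2 : Computable fun p : List (Fin r × Bool) × ℕ => decide (Q p.1 p.2) := by
      have h3 := Primrec.and.to_comp.comp hsolc (Primrec.and.to_comp.comp hl1 hl2)
      refine h3.of_eq fun p => ?_
      simp only [Q, Bool.decide_and]
    exact Primrec.or.to_comp.comp h1 h2
  have hex : ∀ w : List (Fin r × Bool), ∃ n, (! decide (Solvable c w) || decide (Q w n)) = true := by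
    intro w
    by_cases hw : Solvable c w
    · obtain ⟨u, v, h1, h2, h3⟩ := h w hw
      refine ⟨Encodable.encode (u, v), ?_⟩
      have h4 : Q w (Encodable.encode (u, v)) := by
        simp only [Q, Pool.Agent.H32CE.TDEC.dec_encode]
        exact ⟨h1, h2, h3⟩
      rw [decide_eq_true h4, Bool.or_true]
    · exact ⟨0, by simp [hw]⟩
  let g : List (Fin r × Bool) → ℕ := fun w => Nat.find (hex w)
  have hg : Computable g := by
    have h1 : Partrec fun w : List (Fin r × Bool) =>
        Nat.rfind fun n => Part.some (! decide (Solvable c w) || decide (Q w n)) := by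
      refine Partrec.rfind ?_
      exact hQc
    refine h1.of_eq_tot fun w => ?_
    refine Nat.mem_rfind.2 ⟨?_, fun {m} hm => ?_⟩
    · rw [Part.mem_some_iff]
      exact (Nat.find_spec (hex w)).symm
    · rw [Part.mem_some_iff]
      have := Nat.find_min (hex w) hm
      exact (Bool.eq_false_iff.2 this).symm
  refine ⟨fun w => bif decide (Solvable c w) then some (Pool.Agent.H32CE.TDEC.dec r (g w)) else none,
    ?_, fun w => ?_, fun w u v huv => ?_⟩
  · refine Computable.cond hS.decide ?_ (Computable.const none)
    exact Computable.option_some.comp (hd.to_comp.comp hg)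
  · by_cases hw : Solvable c w
    · simp [hw]
    · simp [hw]
  · by_cases hw : Solvable c w
    · simp only [hw, decide_true, cond_true, Option.some.injEq] at huv
      have h1 : (! decide (Solvable c w) || decide (Q w (g w))) = true := Nat.find_spec (hex w)
      rw [decide_eq_true hw, Bool.not_true, Bool.false_or] at h1
      have h2 : Q w (g w) := of_decide_eq_true h1
      simp only [Q, huv] at h2
      exact ⟨h2.1, h2.2.1, h2.2.2⟩
    · simp [hw] at huv

theorem pow_prim (C E : ℕ) : Primrec fun n : ℕ => C * (n + 1) ^ E :=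
  Primrec.nat_mul.comp (Primrec.const C)
    ((Pool.Agent.H32CE.TDEC.pow_prim E).comp Primrec.succ)

/-- **Main result.** For all `r` and `c` there are `C` and `E` such that, in the free nilpotent
group `N_{r,c} = F_r / γ_{c+1}(F_r)`:

(1) if the equation `[x, y] = w`, given by a word `w`, has a solution, it has one given by words of
length at most `C (|w| + 1)^E`;
(2) there is an algorithm that, given a word `w`, decides whether `[x, y] = w` has a solution, and
returns a solution given by words of length at most `C (|w| + 1)^E` if there is one;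
(3) in particular the set of the words `w` for which `[x, y] = w` has a solution is computable. -/
theorem result (r c : ℕ) : ∃ C E : ℕ,
    (∀ w : List (Fin r × Bool), Solvable c w → ∃ u v, IsSolution c w u v ∧
      u.length ≤ C * (w.length + 1) ^ E ∧ v.length ≤ C * (w.length + 1) ^ E) ∧
    (∃ f : List (Fin r × Bool) → Option (List (Fin r × Bool) × List (Fin r × Bool)),
      Computable f ∧ (∀ w, f w = none ↔ ¬ Solvable c w) ∧
        ∀ w u v, f w = some (u, v) → IsSolution c w u v ∧
          u.length ≤ C * (w.length + 1) ^ E ∧ v.length ≤ C * (w.length + 1) ^ E) ∧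
    ComputablePred (fun w : List (Fin r × Bool) => Solvable c w) := by
  obtain ⟨C, E, h⟩ := bound r c
  have hS : ComputablePred (fun w : List (Fin r × Bool) => Solvable c w) :=
    Pool.Agent.H32CE.x_FINAL r c
  exact ⟨C, E, h, search r c (fun n => C * (n + 1) ^ E) (pow_prim C E) h hS, hS⟩

end Pool.Agent.Results.MP_76db9d_al.PolynomialSolutions
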